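import Pool.Agent.R955.FD.Defs

set_option autoImplicit false

namespace Pool.Agent.R783.FDNRM

open MeasureTheory Set Filter Topology
open scoped ENNReal
open Pool.Agent.R955.FD

universe u

variable {X : Type u} [NormedAddCommGroup X] [NormedSpace ℂ X]

lemma ch_int (n k : ℤ) (t : ℝ) : ch (n : ℝ) (t + k) = ch (n : ℝ) t := by
  unfold ch
  have : (((2 * Real.pi * (n:ℝ) * (t + k) : ℝ) : ℂ) * Complex.I) =
      ((2 * Real.pi * (n:ℝ) * t : ℝ) : ℂ) * Complex.I +
        ((n * k : ℤ) : ℂ) * (2 * Real.pi * Complex.I) := by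
    push_cast
    ring
  rw [this]
  exact Complex.exp_periodic.int_mul (n * k) _

lemma trig_int (c : ℤ →₀ X) (k : ℤ) (t : ℝ) : trig c (t + k) = trig c t := by
  unfold trig
  simp only [ch_int]

lemma continuous_ch (ξ : ℝ) : Continuous (ch ξ) := by
  unfold ch
  fun_prop

lemma continuous_trig (c : ℤ →₀ X) : Continuous (trig c) := by
  unfold trig Finsupp.sum
  refine continuous_finsetSum _ (fun n _ => ?_)
  exact (continuous_ch _).smul continuous_const

lemma wk_bound (k : ℤ) {s : ℝ} (hs : s ∈ Ioc (0:ℝ) 1) :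
    1 / (1 + (s + k) ^ 2) ≤ 3 / (1 + (k:ℝ) ^ 2) := by
  rw [div_le_div_iff₀ (by positivity) (by positivity)]
  nlinarith [hs.1, hs.2, sq_nonneg ((s + k) + s), sq_nonneg (s + (k:ℝ))]

lemma wk_summable : Summable (fun k : ℤ => 3 / (1 + (k:ℝ) ^ 2)) := by
  have h1 : Summable (fun k : ℤ => 1 / (k:ℝ) ^ 2) :=
    Real.summable_one_div_int_pow.2 (by norm_num)
  have h2 : Summable (fun k : ℤ => if k = 0 then (1:ℝ) else 0) :=
    (hasSum_ite_eq (0:ℤ) (1:ℝ)).summable
  refine Summable.of_nonneg_of_le (fun k => by positivity) (fun k => ?_)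
    ((h1.add h2).mul_left 3)
  by_cases hk : k = 0
  · subst hk; simp
  · have hk' : (0:ℝ) < (k:ℝ) ^ 2 := by positivity
    simp only [hk, if_false, add_zero]
    rw [← mul_div_assoc, mul_one]
    exact div_le_div_of_nonneg_left (by norm_num) hk' (by linarith)

/-- the constant -/
noncomputable def W : ℝ≥0∞ := ∑' k : ℤ, ENNReal.ofReal (3 / (1 + (k:ℝ) ^ 2))

lemma W_ne_top : W ≠ ∞ := by
  unfold W
  rw [← ENNReal.ofReal_tsum_of_nonneg (fun k => by positivity) wk_summable]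
  exact ENNReal.ofReal_ne_top

lemma phi_enorm {φ : SchwartzMap ℝ ℂ} {C : ℝ} (hC : 0 ≤ C)
    (h : ∀ t, ‖φ t‖ ≤ C / (1 + t ^ 2)) (t : ℝ) :
    ‖φ t‖ₑ ≤ ENNReal.ofReal C * ENNReal.ofReal (1 / (1 + t ^ 2)) := by
  rw [← ENNReal.ofReal_mul hC, ← ofReal_norm]
  refine ENNReal.ofReal_le_ofReal ((h t).trans (le_of_eq ?_))
  ring

/-- the integral over the line as a sum over unit intervals -/
lemma unfold_int (G : ℝ → ℝ≥0∞) (hG : Measurable G) :
    ∫⁻ t, G t = ∑' k : ℤ, ∫⁻ s in Ioc (0:ℝ) 1, G (s + k) := by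
  rw [← setLIntegral_univ, ← iUnion_Ioc_intCast ℝ,
    lintegral_iUnion (fun _ => measurableSet_Ioc) (pairwise_disjoint_Ioc_intCast ℝ)]
  refine tsum_congr (fun k => ?_)
  have h := (measurePreserving_add_right volume (k:ℝ)).setLIntegral_comp_preimage
    (measurableSet_Ioc (a := (k:ℝ)) (b := (k:ℝ) + 1)) hG
  rw [← h]
  congr 2
  ext x
  simp only [mem_preimage, mem_Ioc]
  constructor <;> rintro ⟨h1, h2⟩ <;> constructor <;> linarith

lemma fin_case (φ : SchwartzMap ℝ ℂ) (C : ℝ) (hC : 0 ≤ C) (h : ∀ t, ‖φ t‖ ≤ C / (1 + t ^ 2))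
    (c : ℤ →₀ X) (q : ℝ) (hq : 1 ≤ q) :
    ∫⁻ t, ‖φ t • trig c t‖ₑ ^ q ≤
      ENNReal.ofReal C ^ q * W * ∫⁻ t in Ioc (0:ℝ) 1, ‖trig c t‖ₑ ^ q := by
  have hq0 : 0 ≤ q := by linarith
  have hc := continuous_trig c
  have hcont : Continuous (fun t => φ t • trig c t) := φ.continuous.smul hc
  rw [unfold_int _ (hcont.enorm.measurable.pow_const q)]
  have hk : ∀ k : ℤ, ∫⁻ s in Ioc (0:ℝ) 1, ‖φ (s + k) • trig c (s + k)‖ₑ ^ q ≤
      (ENNReal.ofReal C ^ q * ENNReal.ofReal (3 / (1 + (k:ℝ) ^ 2))) *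
        ∫⁻ t in Ioc (0:ℝ) 1, ‖trig c t‖ₑ ^ q := by
    intro k
    rw [← lintegral_const_mul _ (hc.enorm.measurable.pow_const q)]
    refine setLIntegral_mono ((hc.enorm.measurable.pow_const q).const_mul _) (fun s hs => ?_)
    rw [enorm_smul, trig_int, ENNReal.mul_rpow_of_nonneg _ _ hq0]
    refine mul_le_mul_left ?_ _
    have h1 := phi_enorm hC h (s + k)
    have h2 : ENNReal.ofReal (1 / (1 + (s + k) ^ 2)) ≤ 1 := by
      rw [ENNReal.ofReal_le_one, div_le_one (by positivity)]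
      nlinarith [sq_nonneg (s + (k:ℝ))]
    calc ‖φ (s + k)‖ₑ ^ q ≤ (ENNReal.ofReal C * ENNReal.ofReal (1 / (1 + (s + k) ^ 2))) ^ q :=
          ENNReal.rpow_le_rpow h1 hq0
      _ = ENNReal.ofReal C ^ q * ENNReal.ofReal (1 / (1 + (s + k) ^ 2)) ^ q :=
          ENNReal.mul_rpow_of_nonneg _ _ hq0
      _ ≤ ENNReal.ofReal C ^ q * ENNReal.ofReal (1 / (1 + (s + k) ^ 2)) := by
          gcongr
          exact ENNReal.rpow_le_self_of_le_one h2 hq
      _ ≤ ENNReal.ofReal C ^ q * ENNReal.ofReal (3 / (1 + (k:ℝ) ^ 2)) :=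
          mul_le_mul' le_rfl (ENNReal.ofReal_le_ofReal (wk_bound k hs))
  calc ∑' k : ℤ, ∫⁻ s in Ioc (0:ℝ) 1, ‖φ (s + k) • trig c (s + k)‖ₑ ^ q
      ≤ ∑' k : ℤ, (ENNReal.ofReal C ^ q * ENNReal.ofReal (3 / (1 + (k:ℝ) ^ 2))) *
        ∫⁻ t in Ioc (0:ℝ) 1, ‖trig c t‖ₑ ^ q := ENNReal.tsum_le_tsum hk
    _ = ENNReal.ofReal C ^ q * W * ∫⁻ t in Ioc (0:ℝ) 1, ‖trig c t‖ₑ ^ q := by
        rw [ENNReal.tsum_mul_right, ENNReal.tsum_mul_left, W]

lemma top_case (φ : SchwartzMap ℝ ℂ) (C : ℝ) (hC : 0 ≤ C) (h : ∀ t, ‖φ t‖ ≤ C / (1 + t ^ 2))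
    (c : ℤ →₀ X) :
    eLpNormEssSup (fun t => φ t • trig c t) volume ≤
      ENNReal.ofReal C * eLpNormEssSup (trig c) (volume.restrict (Ioc (0:ℝ) 1)) := by
  set M := eLpNormEssSup (trig c) (volume.restrict (Ioc (0:ℝ) 1)) with hM
  have h1 : ∀ᵐ s ∂(volume.restrict (Ioc (0:ℝ) 1)), ‖trig c s‖ₑ ≤ M := enorm_ae_le_eLpNormEssSup _ _
  have h2 : ∀ᵐ t ∂(volume : Measure ℝ), ‖trig c t‖ₑ ≤ M := by
    rw [← Measure.restrict_univ (μ := (volume : Measure ℝ)), ← iUnion_Ioc_intCast ℝ,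
      ae_restrict_iUnion_iff]
    intro k
    have h3 := ((measurePreserving_sub_right (volume : Measure ℝ) (k:ℝ)).restrict_preimage
      (measurableSet_Ioc (a := (0:ℝ)) (b := 1))).quasiMeasurePreserving.ae h1
    have h4 : (fun x : ℝ => x - k) ⁻¹' Ioc (0:ℝ) 1 = Ioc (k:ℝ) (k + 1) := by
      ext x
      simp only [mem_preimage, mem_Ioc]
      constructor <;> rintro ⟨h1, h2⟩ <;> constructor <;> linarith
    rw [h4] at h3
    filter_upwards [h3] with t ht
    have h5 := trig_int c k (t - k)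
    rw [sub_add_cancel] at h5
    rw [h5]
    exact ht
  refine eLpNormEssSup_le_of_ae_enorm_bound ?_
  filter_upwards [h2] with t ht
  rw [enorm_smul]
  refine mul_le_mul' ?_ ht
  refine (phi_enorm hC h t).trans ?_
  have h2 : ENNReal.ofReal (1 / (1 + t ^ 2)) ≤ 1 := by
    rw [ENNReal.ofReal_le_one, div_le_one (by positivity)]
    nlinarith [sq_nonneg t]
  calc ENNReal.ofReal C * ENNReal.ofReal (1 / (1 + t ^ 2)) ≤ ENNReal.ofReal C * 1 := by gcongr
    _ = ENNReal.ofReal C := mul_one _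

theorem t_NRM : S_NRM.{u} := by
  intro X _ _ φ C hlow hup
  have hC : 0 < C := by
    have h1 := hlow 0 (by simp)
    have h2 := hup 0
    simp at h2
    linarith
  have hW' : max 1 W ≠ ∞ := by
    exact (max_lt ENNReal.one_lt_top (lt_top_iff_ne_top.2 W_ne_top)).ne
  have hW1 : 1 ≤ (max 1 W).toReal := by
    have : (1:ℝ≥0∞) ≤ max 1 W := le_max_left _ _
    exact (ENNReal.toReal_mono hW' this)
  refine ⟨C * (max 1 W).toReal, by positivity, ?_⟩
  intro p c hp
  have hC' : ENNReal.ofReal (C * (max 1 W).toReal) = ENNReal.ofReal C * max 1 W := by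
    rw [ENNReal.ofReal_mul hC.le, ENNReal.ofReal_toReal hW']
  refine ⟨?_, ?_⟩
  · unfold nT nR
    have h1 : eLpNorm (trig c) p (volume.restrict (Ioc (0:ℝ) 1)) ≤
        ENNReal.ofReal 2 * eLpNorm (fun t => φ t • trig c t) p (volume.restrict (Ioc (0:ℝ) 1)) := by
      refine eLpNorm_le_mul_eLpNorm_of_ae_le_mul ?_ p
      refine ae_restrict_of_forall_mem measurableSet_Ioc (fun t ht => ?_)
      have h2 := hlow t ⟨ht.1.le, ht.2⟩
      rw [norm_smul]
      nlinarith [norm_nonneg (trig c t)]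
    have h2 : eLpNorm (fun t => φ t • trig c t) p (volume.restrict (Ioc (0:ℝ) 1)) ≤
        eLpNorm (fun t => φ t • trig c t) p volume := eLpNorm_mono_measure _ Measure.restrict_le_self
    calc eLpNorm (trig c) p (volume.restrict (Ioc (0:ℝ) 1)) ≤
        ENNReal.ofReal 2 * eLpNorm (fun t => φ t • trig c t) p (volume.restrict (Ioc (0:ℝ) 1)) := h1
      _ ≤ 2 * eLpNorm (fun t => φ t • trig c t) p volume := by
        rw [ENNReal.ofReal_ofNat]
        gcongr
  · rw [hC']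
    unfold nT nR
    by_cases hpt : p = ∞
    · rw [hpt, eLpNorm_exponent_top, eLpNorm_exponent_top]
      refine (top_case φ C hC.le hup c).trans ?_
      calc ENNReal.ofReal C * eLpNormEssSup (trig c) (volume.restrict (Ioc (0:ℝ) 1))
          = ENNReal.ofReal C * 1 * eLpNormEssSup (trig c) (volume.restrict (Ioc (0:ℝ) 1)) := by
            rw [mul_one]
        _ ≤ _ := by
            gcongr
            exact le_max_left _ _
    · have hp0 : p ≠ 0 := (lt_of_lt_of_le zero_lt_one hp).ne'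
      have hq : 1 ≤ p.toReal := by
        have := ENNReal.toReal_mono hpt hp
        simpa using this
      have hq0 : 0 < p.toReal := by linarith
      rw [eLpNorm_eq_lintegral_rpow_enorm_toReal hp0 hpt,
        eLpNorm_eq_lintegral_rpow_enorm_toReal hp0 hpt]
      have h1 := fin_case φ C hC.le hup c p.toReal hq
      have hinv : 0 ≤ 1 / p.toReal := by positivity
      have h2 := ENNReal.rpow_le_rpow h1 hinv
      refine h2.trans ?_
      rw [ENNReal.mul_rpow_of_nonneg _ _ hinv, ENNReal.mul_rpow_of_nonneg _ _ hinv,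
        ← ENNReal.rpow_mul, mul_one_div_cancel hq0.ne', ENNReal.rpow_one]
      gcongr
      calc W ^ (1 / p.toReal) ≤ (max 1 W) ^ (1 / p.toReal) :=
            ENNReal.rpow_le_rpow (le_max_right _ _) hinv
        _ ≤ (max 1 W) ^ (1:ℝ) := by
            refine ENNReal.rpow_le_rpow_of_exponent_le (le_max_left _ _) ?_
            rw [div_le_one hq0]
            exact hq
        _ = max 1 W := ENNReal.rpow_one _

end Pool.Agent.R783.FDNRM
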