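import Pool.Agent.R783.WalkC

/-!
# Centred counting walk: steering along a slow path, windows at constant height
-/

set_option autoImplicit false
set_option linter.unusedSectionVars false

namespace Pool.Agent.R783.Walk

open MeasureTheory ProbabilityTheory Filter Topology

/-- steering along the path `g` in blocks of length `L` -/
def Steer (p C : ℝ) (L : ℕ) (g : ℕ → ℝ) (J : ℕ) (w : ℕ → ℕ) : Prop :=
  (∀ j ≤ J, |Y p w (j * L) - g j| ≤ 2 * C * √L) ∧
    ∀ j < J, ∀ n ≤ L, |Y p w (j * L + n) - Y p w (j * L)| ≤ C * √L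

lemma dep_Steer (p C : ℝ) (L : ℕ) (g : ℕ → ℝ) (J : ℕ) : Dep (Steer p C L g J) 0 (J * L) := by
  intro w w' h hw
  have hY : ∀ n ≤ J * L, Y p w n = Y p w' n := fun n hn =>
    Y_congr p w w' n (fun k hk => h k (Nat.zero_le _) (hk.trans_le hn))
  constructor
  · intro j hj
    rw [← hY _ (Nat.mul_le_mul_right _ hj)]; exact hw.1 j hj
  · intro j hj n hn
    have h1 : j * L + n ≤ J * L := by
      calc j * L + n ≤ j * L + L := by omega
        _ = (j + 1) * L := by ring
        _ ≤ J * L := Nat.mul_le_mul_right _ hj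
    rw [← hY _ h1, ← hY _ (by omega)]; exact hw.2 j hj n hn

section

variable {Ω : Type*} [MeasurableSpace Ω] {P : Measure Ω} [IsProbabilityMeasure P]
  {ω : ℕ → Ω → ℕ} {p : ℝ}

lemma steer_prob (hmeas : ∀ n, Measurable (ω n)) (hind : iIndepFun ω P)
    (ρ C : ℝ) (hρ : 0 < ρ) (hC : 1 ≤ C) (L : ℕ)
    (hUD : ∀ m : ℕ, ρ ≤ P.real {o | Up p C L (fun k => ω (m + k) o)} ∧
      ρ ≤ P.real {o | Dn p C L (fun k => ω (m + k) o)})
    (g : ℕ → ℝ) (hg0 : g 0 = 0) (hg : ∀ j, |g (j + 1) - g j| ≤ √L) (J : ℕ) :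
    ρ ^ J ≤ P.real {o | Steer p C L g J (fun k => ω k o)} := by
  have hs : 0 ≤ √(L : ℝ) := Real.sqrt_nonneg _
  have hCs : √(L : ℝ) ≤ C * √L := by nlinarith
  induction J with
  | zero =>
    have : {o | Steer p C L g 0 (fun k => ω k o)} = Set.univ := by
      rw [Set.eq_univ_iff_forall]
      intro o
      constructor
      · intro j hj
        have : j = 0 := by omega
        subst this
        rw [zero_mul, Y_zero, hg0, sub_self, abs_zero]
        positivity
      · intro j hj; omega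
    rw [this]; simp
  | succ J ih =>
    set Q1 : (ℕ → ℕ) → Prop := fun w => Steer p C L g J w ∧ Y p w (J * L) - g J ≤ 0 with hQ1
    set Q2 : (ℕ → ℕ) → Prop := fun w => Steer p C L g J w ∧ ¬ Y p w (J * L) - g J ≤ 0 with hQ2
    have hd : Dep (fun w => Y p w (J * L) - g J ≤ 0) 0 (J * L) := by
      intro w w' h hw
      rw [← Y_congr p w w' (J * L) (fun k hk => h k (Nat.zero_le _) hk)]
      exact hw
    have hQ1d : Dep Q1 0 (J * L) := (dep_Steer p C L g J).and hd
    have hQ2d : Dep Q2 0 (J * L) := (dep_Steer p C L g J).and hd.not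
    have i1 := Dep.indep (P := P) hmeas hind hQ1d ((dep_Up p C L).shift (J * L))
    have i2 := Dep.indep (P := P) hmeas hind hQ2d ((dep_Dn p C L).shift (J * L))
    have hsplit : P.real {o | Steer p C L g J (fun k => ω k o)} =
        P.real {o | Q1 (fun k => ω k o)} + P.real {o | Q2 (fun k => ω k o)} := by
      rw [← measureReal_union]
      · congr 1
        ext o
        simp only [hQ1, hQ2, Set.mem_ofPred_eq, Set.mem_union]
        tauto
      · rw [Set.disjoint_left]
        intro o h1 h2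
        exact h2.2 h1.2
      · exact hQ2d.meas hmeas
    -- geometry of one block
    have hblock : ∀ w : ℕ → ℕ, Steer p C L g J w →
        (∀ n ≤ L, |Y p (fun k => w (J * L + k)) n| ≤ C * √L) →
        |Y p w (J * L) - g J + Y p (fun k => w (J * L + k)) L - (g (J + 1) - g J)| ≤ 2 * C * √L →
        Steer p C L g (J + 1) w := by
      intro w hw h1 h2
      constructor
      · intro j hj
        rcases Nat.lt_or_ge j (J + 1) with h | h
        · exact hw.1 j (by omega)
        · have : j = J + 1 := by omega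
          subst this
          have e := Y_add p w (J * L) L
          have e2 : (J + 1) * L = J * L + L := by ring
          rw [e2]
          have e3 : Y p w (J * L + L) - g (J + 1) =
              Y p w (J * L) - g J + Y p (fun k => w (J * L + k)) L - (g (J + 1) - g J) := by
            rw [← e]; ring
          rw [e3]; exact h2
      · intro j hj n hn
        rcases Nat.lt_or_ge j J with h | h
        · exact hw.2 j h n hn
        · have : j = J := by omega
          subst this
          rw [Y_add]; exact h1 n hn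
    have hsub : {o | Q1 (fun k => ω k o) ∧ Up p C L (fun k => ω (J * L + k) o)} ∪
        {o | Q2 (fun k => ω k o) ∧ Dn p C L (fun k => ω (J * L + k) o)} ⊆
        {o | Steer p C L g (J + 1) (fun k => ω k o)} := by
      rintro o (⟨h1, h2⟩ | ⟨h1, h2⟩)
      · refine hblock _ h1.1 h2.2 ?_
        have a1 := h1.2
        have a2 := h2.1
        have a3 := abs_le.1 (h2.2 L le_rfl)
        have a4 := abs_le.1 (hg J)
        have a5 := abs_le.1 (h1.1.1 J le_rfl)
        rw [abs_le]
        constructor <;> linarith [a3.1, a3.2, a4.1, a4.2, a5.1, a5.2]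
      · refine hblock _ h1.1 h2.2 ?_
        have a1 := not_le.1 h1.2
        have a2 := h2.1
        have a3 := abs_le.1 (h2.2 L le_rfl)
        have a4 := abs_le.1 (hg J)
        have a5 := abs_le.1 (h1.1.1 J le_rfl)
        rw [abs_le]
        constructor <;> linarith [a3.1, a3.2, a4.1, a4.2, a5.1, a5.2]
    have hunion : P.real ({o | Q1 (fun k => ω k o) ∧ Up p C L (fun k => ω (J * L + k) o)} ∪
        {o | Q2 (fun k => ω k o) ∧ Dn p C L (fun k => ω (J * L + k) o)}) =
        P.real {o | Q1 (fun k => ω k o) ∧ Up p C L (fun k => ω (J * L + k) o)} +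
        P.real {o | Q2 (fun k => ω k o) ∧ Dn p C L (fun k => ω (J * L + k) o)} := by
      refine measureReal_union ?_ ?_
      · rw [Set.disjoint_left]
        intro o h1 h2
        exact h2.1.2 h1.1.2
      · exact ((hQ2d.mono le_rfl (Nat.le_add_right _ L)).and
          (((dep_Dn p C L).shift (J * L)).mono (Nat.zero_le _) le_rfl)).meas hmeas
    have hmono := measureReal_mono (μ := P) hsub
    rw [hunion, i1, i2] at hmono
    have b1 : P.real {o | Q1 (fun k => ω k o)} * ρ ≤ P.real {o | Q1 (fun k => ω k o)} *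
        P.real {o | Up p C L (fun k => ω (J * L + k) o)} :=
      mul_le_mul_of_nonneg_left (hUD _).1 measureReal_nonneg
    have b2 : P.real {o | Q2 (fun k => ω k o)} * ρ ≤ P.real {o | Q2 (fun k => ω k o)} *
        P.real {o | Dn p C L (fun k => ω (J * L + k) o)} :=
      mul_le_mul_of_nonneg_left (hUD _).2 measureReal_nonneg
    have b3 : ρ ^ (J + 1) ≤ P.real {o | Steer p C L g J (fun k => ω k o)} * ρ := by
      rw [pow_succ]; exact mul_le_mul_of_nonneg_right ih hρ.le
    rw [hsplit, add_mul] at b3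
    linarith

/-- start times and block lengths -/
def NL (L0 J : ℕ) : ℕ → ℕ × ℕ
  | 0 => (0, L0 + 1)
  | m + 1 => ((NL L0 J m).1 + J * (NL L0 J m).2,
      max (L0 + 1) (max (((NL L0 J m).1 + J * (NL L0 J m).2) ^ 2) (m + 2)))

lemma NL_prop (L0 J m : ℕ) : L0 + 1 ≤ (NL L0 J m).2 ∧ (NL L0 J m).1 ^ 2 ≤ (NL L0 J m).2 ∧
    m + 1 ≤ (NL L0 J m).2 := by
  cases m with
  | zero => simp [NL]
  | succ m => exact ⟨le_max_left _ _, (le_max_left _ _).trans (le_max_right _ _),
      (le_max_right _ _).trans (le_max_right _ _)⟩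

/-- almost surely infinitely many steering events happen -/
lemma steer_io (hmeas : ∀ n, Measurable (ω n)) (hind : iIndepFun ω P)
    (hlaw : ∀ n, P.map (ω n) = P.map (ω 0))
    (ρ C : ℝ) (hρ : 0 < ρ) (hC : 1 ≤ C) (L0 : ℕ)
    (hUD : ∀ L ≥ L0, ∀ m : ℕ, ρ ≤ P.real {o | Up p C L (fun k => ω (m + k) o)} ∧
      ρ ≤ P.real {o | Dn p C L (fun k => ω (m + k) o)})
    (G : ℕ → ℝ) (hG0 : G 0 = 0) (hG : ∀ j, |G (j + 1) - G j| ≤ 1) (J : ℕ) :
    ∀ᵐ o ∂P, ∀ M : ℕ, ∃ m ≥ M, Steer p C (NL L0 J m).2 (fun j => √((NL L0 J m).2 : ℝ) * G j) J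
      (fun k => ω ((NL L0 J m).1 + k) o) := by
  rw [ae_all_iff]
  intro M
  set E : ℕ → (ℕ → ℕ) → Prop := fun m w => Steer p C (NL L0 J m).2
    (fun j => √((NL L0 J m).2 : ℝ) * G j) J (fun k => w ((NL L0 J m).1 + k)) with hE
  have hEd : ∀ m, Dep (E m) (NL L0 J m).1 (NL L0 J (m + 1)).1 := fun m =>
    (dep_Steer p C (NL L0 J m).2 (fun j => √((NL L0 J m).2 : ℝ) * G j) J).shift (NL L0 J m).1
  have hEp : ∀ m, ρ ^ J ≤ P.real {o | E m (fun k => ω k o)} := by
    intro m
    have h1 := steer_prob (P := P) (p := p) hmeas hind ρ C hρ hC (NL L0 J m).2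
      (hUD _ (by have := (NL_prop L0 J m).1; omega))
      (fun j => √((NL L0 J m).2 : ℝ) * G j) (by simp [hG0]) (by
        intro j
        rw [← mul_sub, abs_mul, abs_of_nonneg (Real.sqrt_nonneg _)]
        calc _ ≤ √((NL L0 J m).2 : ℝ) * 1 := mul_le_mul_of_nonneg_left (hG j) (Real.sqrt_nonneg _)
          _ = _ := mul_one _) J
    refine h1.trans (le_of_eq ?_)
    exact (Dep.stat hmeas hind hlaw (dep_Steer p C (NL L0 J m).2
      (fun j => √((NL L0 J m).2 : ℝ) * G j) J) (NL L0 J m).1).symm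
  have hmonoN : Monotone (fun m => (NL L0 J m).1) := by
    refine monotone_nat_of_le_succ fun m => ?_
    exact Nat.le_add_right _ _
  have hbad : ∀ k, P.real {o | ∀ m, M ≤ m → m < M + k → ¬ E m (fun i => ω i o)} ≤
      (1 - ρ ^ J) ^ k := by
    intro k
    induction k with
    | zero => simp only [pow_zero]; exact measureReal_le_one
    | succ k ih =>
      have hQd : Dep (fun w => ∀ m, M ≤ m → m < M + k → ¬ E m w) (NL L0 J M).1
          (NL L0 J (M + k)).1 := by
        refine Dep.forall fun m => Dep.imp fun h1 => Dep.imp fun h2 => ?_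
        exact ((hEd m).not).mono (hmonoN h1) (hmonoN (by omega))
      have hi := Dep.indep (P := P) hmeas hind hQd (hEd (M + k)).not
      have hsub : {o | ∀ m, M ≤ m → m < M + (k + 1) → ¬ E m (fun i => ω i o)} ⊆
          {o | (∀ m, M ≤ m → m < M + k → ¬ E m (fun i => ω i o)) ∧
            ¬ E (M + k) (fun i => ω i o)} := by
        intro o ho
        exact ⟨fun m h1 h2 => ho m h1 (by omega), ho (M + k) (by omega) (by omega)⟩
      have h3 : P.real {o | ¬ E (M + k) (fun i => ω i o)} ≤ 1 - ρ ^ J := by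
        have h4 : P.real {o | E (M + k) (fun i => ω i o)} +
            P.real {o | E (M + k) (fun i => ω i o)}ᶜ = 1 :=
          probReal_add_probReal_compl ((hEd (M + k)).meas hmeas)
        have h5 : {o | E (M + k) (fun i => ω i o)}ᶜ = {o | ¬ E (M + k) (fun i => ω i o)} := rfl
        rw [h5] at h4
        linarith [hEp (M + k)]
      calc _ ≤ _ := measureReal_mono hsub (measure_ne_top _ _)
        _ = _ := hi
        _ ≤ (1 - ρ ^ J) ^ k * (1 - ρ ^ J) := by
            refine mul_le_mul ih h3 measureReal_nonneg ?_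
            exact measureReal_nonneg.trans ih
        _ = _ := (pow_succ _ _).symm
  have hρ1 : ρ ^ J ≤ 1 := (hEp 0).trans measureReal_le_one
  have hρ2 : 0 < ρ ^ J := pow_pos hρ J
  have hzero : P.real {o | ∀ m, M ≤ m → ¬ E m (fun i => ω i o)} ≤ 0 := by
    refine ge_of_tendsto (tendsto_pow_atTop_nhds_zero_of_lt_one (r := 1 - ρ ^ J) (by linarith)
      (by linarith)) (Eventually.of_forall fun k => ?_)
    refine (measureReal_mono ?_ (measure_ne_top _ _)).trans (hbad k)
    intro o ho m h1 _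
    exact ho m h1
  have hz : P {o | ∀ m, M ≤ m → ¬ E m (fun i => ω i o)} = 0 := by
    have := le_antisymm hzero measureReal_nonneg
    rwa [measureReal_eq_zero_iff] at this
  rw [ae_iff]
  refine measure_mono_null ?_ hz
  intro o ho
  rw [Set.mem_ofPred_eq] at ho
  push Not at ho
  exact fun m hm => ho m hm

theorem goodWindows' (hp0 : 0 < p) (hp1 : p < 1) (ω : ℕ → Ω → ℕ)
    (hmeas : ∀ n, Measurable (ω n)) (hind : iIndepFun ω P)
    (h2 : ∀ n, P {o | ω n o = 2} = ENNReal.ofReal p)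
    (h3 : ∀ n, P {o | ω n o = 3} = ENNReal.ofReal (1 - p)) :
    ∀ᵐ o ∂P, ∀ K T : ℕ, ∃ (D : ℝ) (t : Fin K → ℕ) (ℓ : Fin K → ℝ), 10 ≤ D ∧ (∀ i, T ≤ t i) ∧
      (∀ i n, t i ≤ n → n ≤ 2 * t i → |Y p (fun k => ω k o) n - ℓ i| ≤ D / 2) ∧
      (∀ i j, i ≠ j → 3 * D ≤ |ℓ i - ℓ j|) := by
  have hlaw := law_eq hp0 hp1 hmeas h2 h3
  obtain ⟨ρ, hρ, C, hC, L0, hUD⟩ := updn hmeas hind hp0 hp1 hlaw h2
  obtain ⟨b, hb⟩ := exists_nat_ge (Real.exp (18 * C + 18))
  have hbpos : (0 : ℝ) < b := (Real.exp_pos _).trans_le hb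
  have hb1 : 1 ≤ b := by exact_mod_cast (show (0:ℝ) < b from hbpos)
  have hlogb : 18 * C + 18 ≤ Real.log b := by
    rw [← Real.log_exp (18 * C + 18)]
    exact Real.log_le_log (Real.exp_pos _) hb
  rw [ae_all_iff]
  intro K
  -- the slow path
  set G : ℕ → ℝ := fun j => Real.log (1 + j) with hG
  have hG0 : G 0 = 0 := by simp [hG]
  have hG1 : ∀ j, |G (j + 1) - G j| ≤ 1 := by
    intro j
    have hj : (0 : ℝ) < 1 + j := by positivity
    have hj' : (0 : ℝ) < 1 + (j + 1 : ℕ) := by positivity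
    rw [hG]
    simp only
    rw [← Real.log_div hj'.ne' hj.ne', abs_of_nonneg]
    · refine (Real.log_le_sub_one_of_pos (by positivity)).trans ?_
      have : (1 + ((j + 1 : ℕ) : ℝ)) / (1 + j) - 1 = 1 / (1 + j) := by
        push_cast; field_simp; ring
      rw [this, div_le_one hj]
      have : (0 : ℝ) ≤ j := Nat.cast_nonneg j
      linarith
    · apply Real.log_nonneg
      rw [le_div_iff₀ hj]; push_cast; linarith
  set u : ℕ → ℕ := fun i => b ^ (i + 1) - 1 with hu
  have hu1 : ∀ i, u i + 1 = b ^ (i + 1) := fun i => Nat.sub_add_cancel (Nat.one_le_pow _ _ hb1)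
  have hGu : ∀ i, G (u i) = (i + 1) * Real.log b := by
    intro i
    rw [hG]
    simp only
    have : (1 : ℝ) + (u i : ℕ) = (b : ℝ) ^ (i + 1) := by
      rw [add_comm]; exact_mod_cast hu1 i
    rw [this, Real.log_pow]; push_cast; ring
  set J : ℕ := 2 * u K + 3 with hJ
  filter_upwards [steer_io (P := P) hmeas hind hlaw ρ C hρ hC L0 hUD G hG0 hG1 J] with o ho
  intro T
  obtain ⟨m, hm, hst⟩ := ho T
  obtain ⟨n1, n2, n3⟩ := NL_prop L0 J m
  set N := (NL L0 J m).1
  set L := (NL L0 J m).2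
  set W : ℕ → ℕ := fun k => ω k o with hW
  have hL1 : 1 ≤ L := by omega
  have hLr : (1 : ℝ) ≤ L := by exact_mod_cast hL1
  have hs1 : 1 ≤ √(L : ℝ) := by rw [← Real.sqrt_one]; exact Real.sqrt_le_sqrt hLr
  have hNs : (N : ℝ) ≤ √L := by
    apply Real.le_sqrt_of_sq_le
    exact_mod_cast n2
  have hNL : N ≤ L := by
    have h1 : N ≤ N ^ 2 := by
      rcases Nat.eq_zero_or_pos N with h | h
      · rw [h]; simp
      · nlinarith
    omega
  refine ⟨√L * (6 * C + 6), fun i => (u i + 1) * L, fun i => √L * G (u i), ?_, ?_, ?_, ?_⟩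
  · nlinarith
  · intro i
    have h9 : L ≤ (u i + 1) * L := Nat.le_mul_of_pos_left _ (Nat.succ_pos _)
    have h8 : T ≤ L := by omega
    exact h8.trans h9
  · intro i n hn1 hn2
    simp only at hn1 hn2
    have hNn : N ≤ n := by
      have : L ≤ (u i + 1) * L := Nat.le_mul_of_pos_left _ (Nat.succ_pos _)
      omega
    set j := (n - N) / L with hj
    set r := (n - N) % L with hr
    have hjr : N + (j * L + r) = n := by
      have := Nat.div_add_mod (n - N) L
      rw [mul_comm] at this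
      rw [hj, hr, this]; omega
    have hrL : r < L := Nat.mod_lt _ hL1
    have hju : u i ≤ j := by
      rw [hj, Nat.le_div_iff_mul_le hL1]
      have : (u i + 1) * L = u i * L + L := by ring
      omega
    have hju2 : j ≤ 2 * u i + 2 := by
      rw [hj]
      apply Nat.div_le_of_le_mul
      have : 2 * ((u i + 1) * L) = L * (2 * u i + 2) := by ring
      omega
    have huK : u i ≤ u K := by
      rw [hu]
      simp only
      have := Nat.pow_le_pow_right hb1 (show (i : ℕ) + 1 ≤ K + 1 by omega)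
      omega
    have hjJ : j < J := by rw [hJ]; omega
    obtain ⟨s1, s2⟩ := hst
    have q1 := s1 j hjJ.le
    have q2 := s2 j hjJ r hrL.le
    have q3 := abs_Y_le hp0 hp1 W N
    have e1 : Y p (fun k => ω (N + k) o) (j * L + r) = Y p W n - Y p W N := by
      rw [← hjr]; exact (Y_add p W N (j * L + r)).symm
    rw [e1] at q2
    have hjpos : (0 : ℝ) < 1 + j := by positivity
    have hupos : (0 : ℝ) < 1 + (u i : ℕ) := by positivity
    have g1 : G (u i) ≤ G j := by
      rw [hG]; simp only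
      exact Real.log_le_log hupos (by have : ((u i : ℕ) : ℝ) ≤ j := by exact_mod_cast hju
                                      linarith)
    have g2 : G j ≤ G (u i) + 2 := by
      rw [hG]; simp only
      have h4 : Real.log 4 ≤ 2 := by
        have : (4 : ℝ) = 2 ^ 2 := by norm_num
        rw [this, Real.log_pow]
        have := Real.log_two_lt_d9
        push_cast; linarith
      have h5 : (1 : ℝ) + j ≤ 4 * (1 + (u i : ℕ)) := by
        have : (j : ℝ) ≤ 2 * (u i : ℕ) + 2 := by exact_mod_cast hju2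
        have : (0 : ℝ) ≤ (u i : ℕ) := Nat.cast_nonneg _
        linarith
      calc Real.log (1 + j) ≤ Real.log (4 * (1 + (u i : ℕ))) := Real.log_le_log hjpos h5
        _ = Real.log 4 + Real.log (1 + (u i : ℕ)) := Real.log_mul (by norm_num) hupos.ne'
        _ ≤ _ := by linarith
    have hs0 : 0 ≤ √(L : ℝ) := by linarith
    have g3 : √(L : ℝ) * G (u i) ≤ √L * G j := mul_le_mul_of_nonneg_left g1 hs0
    have g4 : √(L : ℝ) * G j ≤ √L * (G (u i) + 2) := mul_le_mul_of_nonneg_left g2 hs0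
    rw [abs_le] at q1 q2 q3 ⊢
    constructor <;> nlinarith [q1.1, q1.2, q2.1, q2.2, q3.1, q3.2]
  · intro i j hij
    rw [← mul_sub, abs_mul, abs_of_nonneg (by linarith : (0:ℝ) ≤ √L), hGu, hGu, ← sub_mul, abs_mul,
      abs_of_nonneg (by linarith : (0:ℝ) ≤ Real.log b)]
    have h1 : (1 : ℝ) ≤ |((i : ℕ) : ℝ) + 1 - (((j : ℕ) : ℝ) + 1)| := by
      have h2 : ((i : ℕ) : ℤ) - (j : ℕ) ≠ 0 := by
        intro h
        apply hij
        ext; omega
      have h3 := Int.one_le_abs h2
      have h4 : (1 : ℝ) ≤ |(((i : ℕ) : ℤ) - (j : ℕ) : ℤ)| := by exact_mod_cast h3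
      push_cast at h4
      have e : ((i : ℕ) : ℝ) + 1 - (((j : ℕ) : ℝ) + 1) = ((i : ℕ) : ℝ) - (j : ℕ) := by ring
      rw [e]; exact h4
    have h5 : 18 * C + 18 ≤ |((i : ℕ) : ℝ) + 1 - (((j : ℕ) : ℝ) + 1)| * Real.log b := by
      nlinarith
    calc 3 * (√(L : ℝ) * (6 * C + 6)) = √L * (18 * C + 18) := by ring
      _ ≤ _ := mul_le_mul_of_nonneg_left h5 (by linarith)

end

theorem goodWindows {Ω : Type*} [MeasurableSpace Ω] (P : Measure Ω) [IsProbabilityMeasure P] (p : ℝ)
    (hp0 : 0 < p) (hp1 : p < 1) (ω : ℕ → Ω → ℕ) (hmeas : ∀ n, Measurable (ω n))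
    (hind : iIndepFun ω P) (h2 : ∀ n, P {o | ω n o = 2} = ENNReal.ofReal p)
    (h3 : ∀ n, P {o | ω n o = 3} = ENNReal.ofReal (1 - p)) :
    ∀ᵐ o ∂P, ∀ K T : ℕ, ∃ (D : ℝ) (t : Fin K → ℕ) (ℓ : Fin K → ℝ), 10 ≤ D ∧ (∀ i, T ≤ t i) ∧
      (∀ i n, t i ≤ n → n ≤ 2 * t i → |Y p (fun k => ω k o) n - ℓ i| ≤ D / 2) ∧
      (∀ i j, i ≠ j → 3 * D ≤ |ℓ i - ℓ j|) :=
  goodWindows' hp0 hp1 ω hmeas hind h2 h3

end Pool.Agent.R783.Walk
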