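import Mathlib

/-!
# Centred counting walk: finite-range events, independence, stationarity
-/

set_option autoImplicit false

namespace Pool.Agent.R783.Walk

open MeasureTheory ProbabilityTheory Filter Topology

/-- centred counting walk -/
noncomputable def Y (p : ℝ) (w : ℕ → ℕ) (n : ℕ) : ℝ :=
  (((Finset.range n).filter (fun k => w k = 2)).card : ℝ) - p * n

/-- increments -/
noncomputable def xi (p : ℝ) (a : ℕ) : ℝ := (if a = 2 then 1 else 0) - p

lemma Y_eq (p : ℝ) (w : ℕ → ℕ) (n : ℕ) : Y p w n = ∑ k ∈ Finset.range n, xi p (w k) := by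
  simp only [Y, xi, Finset.sum_sub_distrib, Finset.sum_const, Finset.card_range, nsmul_eq_mul,
    Finset.sum_boole]
  ring

lemma Y_zero (p : ℝ) (w : ℕ → ℕ) : Y p w 0 = 0 := by simp [Y]

lemma Y_add (p : ℝ) (w : ℕ → ℕ) (m n : ℕ) :
    Y p w (m + n) - Y p w m = Y p (fun k => w (m + k)) n := by
  rw [Y_eq, Y_eq, Y_eq, Finset.sum_range_add]; ring

lemma Y_congr (p : ℝ) (w w' : ℕ → ℕ) (n : ℕ) (h : ∀ k < n, w k = w' k) : Y p w n = Y p w' n := by
  rw [Y_eq, Y_eq]
  exact Finset.sum_congr rfl fun k hk => by rw [h k (Finset.mem_range.1 hk)]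

lemma abs_xi_le {p : ℝ} (hp0 : 0 < p) (hp1 : p < 1) (a : ℕ) : |xi p a| ≤ 1 := by
  unfold xi
  split_ifs <;> rw [abs_le] <;> constructor <;> linarith

lemma abs_Y_le {p : ℝ} (hp0 : 0 < p) (hp1 : p < 1) (w : ℕ → ℕ) (n : ℕ) : |Y p w n| ≤ n := by
  rw [Y_eq]
  calc |∑ k ∈ Finset.range n, xi p (w k)| ≤ ∑ k ∈ Finset.range n, |xi p (w k)| :=
        Finset.abs_sum_le_sum_abs _ _
    _ ≤ ∑ k ∈ Finset.range n, (1 : ℝ) := Finset.sum_le_sum fun k _ => abs_xi_le hp0 hp1 _
    _ = n := by simp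

/-- `Q` depends only on the coordinates in `[a,b)` -/
def Dep (Q : (ℕ → ℕ) → Prop) (a b : ℕ) : Prop :=
  ∀ w w' : ℕ → ℕ, (∀ k, a ≤ k → k < b → w k = w' k) → Q w → Q w'

/-- extension by zero -/
def ext (S : Finset ℕ) (u : S → ℕ) : ℕ → ℕ := fun k => if h : k ∈ S then u ⟨k, h⟩ else 0

lemma Dep.and {Q R : (ℕ → ℕ) → Prop} {a b : ℕ} (hQ : Dep Q a b) (hR : Dep R a b) :
    Dep (fun w => Q w ∧ R w) a b := fun w w' h hw => ⟨hQ w w' h hw.1, hR w w' h hw.2⟩

lemma Dep.not {Q : (ℕ → ℕ) → Prop} {a b : ℕ} (hQ : Dep Q a b) : Dep (fun w => ¬ Q w) a b :=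
  fun w w' h hw hw' => hw (hQ w' w (fun k h1 h2 => (h k h1 h2).symm) hw')

lemma Dep.mono {Q : (ℕ → ℕ) → Prop} {a b a' b' : ℕ} (hQ : Dep Q a b) (ha : a' ≤ a) (hb : b ≤ b') :
    Dep Q a' b' := fun w w' h hw => hQ w w' (fun k h1 h2 => h k (ha.trans h1) (h2.trans_le hb)) hw

lemma Dep.shift {Q : (ℕ → ℕ) → Prop} {L : ℕ} (hQ : Dep Q 0 L) (m : ℕ) :
    Dep (fun w => Q (fun k => w (m + k))) m (m + L) :=
  fun w w' h hw => hQ _ _ (fun k _ h2 => h (m + k) (by omega) (by omega)) hw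

lemma Dep.forall {Q : ℕ → (ℕ → ℕ) → Prop} {a b : ℕ} (hQ : ∀ i, Dep (Q i) a b) :
    Dep (fun w => ∀ i, Q i w) a b := fun w w' h hw i => hQ i w w' h (hw i)

lemma Dep.imp {Q : (ℕ → ℕ) → Prop} {c : Prop} {a b : ℕ} (hQ : c → Dep Q a b) :
    Dep (fun w => c → Q w) a b := fun w w' h hw hc => hQ hc w w' h (hw hc)

section

variable {Ω : Type*} [MeasurableSpace Ω] {P : Measure Ω} [IsProbabilityMeasure P]
  {ω : ℕ → Ω → ℕ}

lemma Dep.set_eq {Q : (ℕ → ℕ) → Prop} {a b : ℕ} (hQ : Dep Q a b) :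
    {o | Q (fun k => ω k o)} =
      (fun o (i : Finset.Ico a b) => ω i o) ⁻¹' {u | Q (ext (Finset.Ico a b) u)} := by
  ext o
  have h : ∀ k, a ≤ k → k < b →
      ω k o = ext (Finset.Ico a b) (fun i => ω i o) k := by
    intro k h1 h2
    rw [ext, dif_pos (Finset.mem_Ico.2 ⟨h1, h2⟩)]
  constructor
  · intro ho
    exact hQ _ _ h ho
  · intro ho
    exact hQ _ _ (fun k h1 h2 => (h k h1 h2).symm) ho

lemma Dep.meas (hmeas : ∀ n, Measurable (ω n)) {Q : (ℕ → ℕ) → Prop} {a b : ℕ} (hQ : Dep Q a b) :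
    MeasurableSet {o | Q (fun k => ω k o)} := by
  rw [hQ.set_eq]
  have h : Measurable (fun o (i : Finset.Ico a b) => ω i o) := measurable_pi_lambda _ fun i => hmeas i
  exact h (MeasurableSet.of_discrete)

lemma Dep.indep (hmeas : ∀ n, Measurable (ω n)) (hind : iIndepFun ω P) {Q R : (ℕ → ℕ) → Prop}
    {a b c : ℕ} (hQ : Dep Q a b) (hR : Dep R b c) :
    P.real {o | Q (fun k => ω k o) ∧ R (fun k => ω k o)} =
      P.real {o | Q (fun k => ω k o)} * P.real {o | R (fun k => ω k o)} := by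
  have hdis : Disjoint (Finset.Ico a b) (Finset.Ico b c) := by
    rw [Finset.disjoint_left]
    intro x hx hy
    rw [Finset.mem_Ico] at hx hy
    omega
  have h1 := hind.indepFun_finset (Finset.Ico a b) (Finset.Ico b c) hdis hmeas
  have h2 := h1.measure_inter_preimage_eq_mul {u | Q (ext (Finset.Ico a b) u)}
    {u | R (ext (Finset.Ico b c) u)} MeasurableSet.of_discrete MeasurableSet.of_discrete
  rw [← hQ.set_eq, ← hR.set_eq] at h2
  have h3 : {o | Q (fun k => ω k o) ∧ R (fun k => ω k o)} =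
    {o | Q (fun k => ω k o)} ∩ {o | R (fun k => ω k o)} := rfl
  rw [h3, measureReal_def, h2, ENNReal.toReal_mul]
  rfl

variable {p : ℝ}

lemma law_eq (hp0 : 0 < p) (hp1 : p < 1) (hmeas : ∀ n, Measurable (ω n))
    (h2 : ∀ n, P {o | ω n o = 2} = ENNReal.ofReal p)
    (h3 : ∀ n, P {o | ω n o = 3} = ENNReal.ofReal (1 - p)) (n : ℕ) :
    P.map (ω n) = P.map (ω 0) := by
  have key : ∀ n a, a ≠ 2 → a ≠ 3 → P {o | ω n o = a} = 0 := by
    intro n a ha2 ha3
    have hdis : P ({o | ω n o = 2} ∪ {o | ω n o = 3}) = 1 := by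
      rw [measure_union, h2, h3, ← ENNReal.ofReal_add hp0.le (by linarith)]
      · simp
      · rw [Set.disjoint_left]; intro o ho ho'
        rw [Set.mem_ofPred_eq] at ho ho'
        omega
      · exact hmeas n (measurableSet_singleton 3)
    have hms : MeasurableSet ({o | ω n o = 2} ∪ {o | ω n o = 3}) :=
      (hmeas n (measurableSet_singleton 2)).union (hmeas n (measurableSet_singleton 3))
    have hcompl : P ({o | ω n o = 2} ∪ {o | ω n o = 3})ᶜ = 0 := by
      rw [prob_compl_eq_zero_iff hms]; exact hdis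
    refine measure_mono_null ?_ hcompl
    intro o ho
    rw [Set.mem_ofPred_eq] at ho
    simp only [Set.mem_compl_iff, Set.mem_union, Set.mem_ofPred_eq]
    omega
  refine Measure.ext_of_singleton fun a => ?_
  rw [Measure.map_apply (hmeas n) (measurableSet_singleton a),
    Measure.map_apply (hmeas 0) (measurableSet_singleton a)]
  have e : ∀ m, (ω m) ⁻¹' {a} = {o | ω m o = a} := fun m => rfl
  rw [e, e]
  by_cases ha2 : a = 2
  · rw [ha2, h2, h2]
  · by_cases ha3 : a = 3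
    · rw [ha3, h3, h3]
    · rw [key n a ha2 ha3, key 0 a ha2 ha3]

lemma Dep.stat (hmeas : ∀ n, Measurable (ω n)) (hind : iIndepFun ω P)
    (hlaw : ∀ n, P.map (ω n) = P.map (ω 0)) {R : (ℕ → ℕ) → Prop} {L : ℕ} (hR : Dep R 0 L) (m : ℕ) :
    P.real {o | R (fun k => ω (m + k) o)} = P.real {o | R (fun k => ω k o)} := by
  have hmap : ∀ m, P.map (fun o (i : Finset.Ico 0 L) => ω (m + i) o) =
      Measure.pi (fun _ : Finset.Ico 0 L => P.map (ω 0)) := by
    intro m
    have h1 : iIndepFun (fun i : Finset.Ico 0 L => ω (m + i)) P :=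
      hind.precomp (g := fun i : Finset.Ico 0 L => m + (i : ℕ)) (by
        intro i j hij
        simp only at hij
        exact Subtype.ext (by omega))
    rw [(iIndepFun_iff_map_fun_eq_pi_map (fun i => (hmeas _).aemeasurable)).1 h1]
    congr 1
    funext i
    exact hlaw _
  have hset : ∀ m, P {o | R (fun k => ω (m + k) o)} =
      P.map (fun o (i : Finset.Ico 0 L) => ω (m + i) o) {u | R (ext (Finset.Ico 0 L) u)} := by
    intro m
    rw [Measure.map_apply (measurable_pi_lambda _ fun i => hmeas _) MeasurableSet.of_discrete]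
    congr 1
    exact hR.set_eq (ω := fun k => ω (m + k))
  have e : P {o | R (fun k => ω (m + k) o)} = P {o | R (fun k => ω (0 + k) o)} := by
    rw [hset m, hset 0, hmap m, hmap 0]
  rw [measureReal_def, e]
  simp only [zero_add]
  rfl

end

end Pool.Agent.R783.Walk
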