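import Pool.Agent.R783.WalkA

/-!
# Centred counting walk: central limit theorem and maximal inequality
-/

set_option autoImplicit false
set_option linter.unusedSectionVars false

namespace Pool.Agent.R783.Walk

open MeasureTheory ProbabilityTheory Filter Topology

section

variable {Ω : Type*} [MeasurableSpace Ω] {P : Measure Ω} [IsProbabilityMeasure P]
  {ω : ℕ → Ω → ℕ} {p : ℝ}

lemma mean_xi (hmeas : ∀ n, Measurable (ω n)) (hp0 : 0 < p)
    (h2 : ∀ n, P {o | ω n o = 2} = ENNReal.ofReal p) (n : ℕ) :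
    ∫ o, xi p (ω n o) ∂P = 0 := by
  have hms : MeasurableSet {o | ω n o = 2} := hmeas n (measurableSet_singleton 2)
  have e : (fun o => xi p (ω n o)) = fun o => ({o | ω n o = 2}.indicator (fun _ => (1 : ℝ)) o) - p := by
    funext o
    simp only [xi, Set.indicator, Set.mem_ofPred_eq]
  rw [e, integral_sub ((integrable_const (1 : ℝ)).indicator hms) (integrable_const p),
    integral_indicator_const _ hms, integral_const, measureReal_def, h2, ENNReal.toReal_ofReal hp0.le]
  simp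

lemma sq_xi (hmeas : ∀ n, Measurable (ω n)) (hp0 : 0 < p)
    (h2 : ∀ n, P {o | ω n o = 2} = ENNReal.ofReal p) (n : ℕ) :
    ∫ o, (xi p (ω n o)) ^ 2 ∂P = p * (1 - p) := by
  have hms : MeasurableSet {o | ω n o = 2} := hmeas n (measurableSet_singleton 2)
  have e : (fun o => (xi p (ω n o)) ^ 2) =
      fun o => ({o | ω n o = 2}.indicator (fun _ => (1 - 2 * p : ℝ)) o) + p ^ 2 := by
    funext o
    simp only [xi, Set.indicator, Set.mem_ofPred_eq]
    split_ifs <;> ring
  rw [e, integral_add ((integrable_const (1 - 2 * p : ℝ)).indicator hms) (integrable_const (p ^ 2)),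
    integral_indicator_const _ hms, integral_const, measureReal_def, h2, ENNReal.toReal_ofReal hp0.le]
  simp
  ring

lemma memLp_xi (hmeas : ∀ n, Measurable (ω n)) (hp0 : 0 < p) (hp1 : p < 1) (n : ℕ) :
    MemLp (fun o => xi p (ω n o)) 2 P := by
  refine MemLp.of_bound (C := 1) ?_ (Eventually.of_forall fun o => ?_)
  · exact ((Measurable.of_discrete (f := xi p)).comp (hmeas n)).aestronglyMeasurable
  · rw [Real.norm_eq_abs]; exact abs_xi_le hp0 hp1 _

lemma var_xi (hmeas : ∀ n, Measurable (ω n)) (hp0 : 0 < p) (hp1 : p < 1)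
    (h2 : ∀ n, P {o | ω n o = 2} = ENNReal.ofReal p) (n : ℕ) :
    Var[fun o => xi p (ω n o); P] = p * (1 - p) := by
  rw [variance_eq_sub (memLp_xi hmeas hp0 hp1 n), mean_xi hmeas hp0 h2 n]
  have : ∫ o, ((fun o => xi p (ω n o)) ^ 2) o ∂P = p * (1 - p) := sq_xi hmeas hp0 h2 n
  rw [this]; ring

lemma indep_xi (hind : iIndepFun ω P) : iIndepFun (fun n o => xi p (ω n o)) P :=
  hind.comp (fun _ => xi p) (fun _ => Measurable.of_discrete)

lemma cheb (hmeas : ∀ n, Measurable (ω n)) (hind : iIndepFun ω P) (hp0 : 0 < p) (hp1 : p < 1)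
    (h2 : ∀ n, P {o | ω n o = 2} = ENNReal.ofReal p) (L : ℕ) (lam : ℝ) (hlam : 0 < lam) :
    P.real {o | lam ≤ |Y p (fun k => ω k o) L|} ≤ L / lam ^ 2 := by
  set S : Ω → ℝ := ∑ k ∈ Finset.range L, fun o => xi p (ω k o) with hS
  have hSe : ∀ o, S o = Y p (fun k => ω k o) L := by
    intro o; rw [hS, Finset.sum_apply, Y_eq]
  have hmem : MemLp S 2 P := memLp_finsetSum' _ fun k _ => memLp_xi hmeas hp0 hp1 k
  have hvar : Var[S; P] = L * (p * (1 - p)) := by
    rw [hS, IndepFun.variance_sum (fun k _ => memLp_xi hmeas hp0 hp1 k)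
      (fun i _ j _ hij => (indep_xi hind).indepFun hij)]
    simp [var_xi hmeas hp0 hp1 h2]
  have hmean : P[S] = 0 := by
    rw [hS]
    simp only [Finset.sum_apply]
    rw [integral_finsetSum _ fun k _ => (memLp_xi hmeas hp0 hp1 k).integrable (by norm_num)]
    simp [mean_xi hmeas hp0 h2]
  have h := meas_ge_le_variance_div_sq hmem hlam
  rw [hmean, hvar] at h
  simp only [sub_zero, hSe] at h
  rw [measureReal_def]
  refine ENNReal.toReal_le_of_le_ofReal (by positivity) (h.trans (ENNReal.ofReal_le_ofReal ?_))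
  gcongr
  nlinarith [show (0:ℝ) ≤ L from Nat.cast_nonneg L, show p * (1 - p) ≤ 1 by nlinarith]

/-- central limit theorem consequence -/
lemma clt (hmeas : ∀ n, Measurable (ω n)) (hind : iIndepFun ω P) (hp0 : 0 < p) (hp1 : p < 1)
    (hlaw : ∀ n, P.map (ω n) = P.map (ω 0))
    (h2 : ∀ n, P {o | ω n o = 2} = ENNReal.ofReal p) :
    ∃ ρ > 0, ∃ L0 : ℕ, ∀ L ≥ L0, ρ ≤ P.real {o | √L < Y p (fun k => ω k o) L} ∧
      ρ ≤ P.real {o | Y p (fun k => ω k o) L < - √L} := by
  have hv : Var[fun o => xi p (ω 0 o); P].toNNReal ≠ 0 := by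
    rw [var_xi hmeas hp0 hp1 h2]
    have : 0 < p * (1 - p) := mul_pos hp0 (by linarith)
    simpa using this
  set γ := gaussianReal 0 Var[fun o => xi p (ω 0 o); P].toNNReal with hγ
  have hid : ∀ i, IdentDistrib (fun o => xi p (ω i o)) (fun o => xi p (ω 0 o)) P P := by
    intro i
    have h1 : IdentDistrib (ω i) (ω 0) P P :=
      ⟨(hmeas i).aemeasurable, (hmeas 0).aemeasurable, hlaw i⟩
    exact h1.comp (u := xi p) Measurable.of_discrete
  have hclt := tendstoInDistribution_inv_sqrt_mul_sum_sub (P := P) (P' := γ) (Y := id)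
    (X := fun k o => xi p (ω k o)) ⟨by fun_prop, Measure.map_id⟩ (memLp_xi hmeas hp0 hp1 0)
    (indep_xi hind) hid
  have hpos : ∀ G : Set ℝ, IsOpen G → G.Nonempty → γ G ≠ 0 := by
    intro G hG hne h0
    have h1 := gaussianReal_absolutelyContinuous' 0 hv h0
    exact (hG.measure_pos volume hne).ne' h1
  have key : ∀ G : Set ℝ, IsOpen G → G.Nonempty → ∃ ρ > 0, ∀ᶠ L : ℕ in atTop,
      ρ ≤ P.real {o | (√L)⁻¹ * (∑ k ∈ Finset.range L, xi p (ω k o) -
        L * ∫ o, xi p (ω 0 o) ∂P) ∈ G} := by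
    intro G hG hne
    have h1 := ProbabilityMeasure.le_liminf_measure_open_of_tendsto hclt.tendsto hG
    simp only [ProbabilityMeasure.coe_mk] at h1
    rw [Measure.map_id] at h1
    have h2' : γ G / 2 < γ G := ENNReal.half_lt_self (hpos G hG hne) (measure_ne_top _ _)
    have h3 := eventually_lt_of_lt_liminf (h2'.trans_le h1)
    refine ⟨(γ G / 2).toReal, ?_, ?_⟩
    · refine ENNReal.toReal_pos ?_ ?_
      · exact (ENNReal.half_pos (hpos G hG hne)).ne'
      · exact (h2'.trans_le le_top).ne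
    · filter_upwards [h3] with L hL
      rw [measureReal_def]
      refine ENNReal.toReal_mono (measure_ne_top _ _) ?_
      refine hL.le.trans (le_of_eq ?_)
      rw [Measure.map_apply_of_aemeasurable (hclt.forall_aemeasurable L) hG.measurableSet]
      rfl
  obtain ⟨ρ1, hρ1, h1⟩ := key (Set.Ioi 1) isOpen_Ioi ⟨2, by norm_num⟩
  obtain ⟨ρ2, hρ2, h2'⟩ := key (Set.Iio (-1)) isOpen_Iio ⟨-2, by norm_num⟩
  obtain ⟨L0, hL0⟩ := eventually_atTop.1 ((h1.and h2').and (eventually_gt_atTop 0))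
  refine ⟨min ρ1 ρ2, lt_min hρ1 hρ2, L0, fun L hL => ?_⟩
  obtain ⟨⟨a1, a2⟩, a3⟩ := hL0 L hL
  have hs : 0 < √(L : ℝ) := Real.sqrt_pos.2 (by exact_mod_cast a3)
  rw [mean_xi hmeas hp0 h2] at a1 a2
  simp only [mul_zero, sub_zero, Set.mem_Ioi, Set.mem_Iio, ← Y_eq p (fun k => ω k _)] at a1 a2
  constructor
  · refine (min_le_left _ _).trans (a1.trans (measureReal_mono ?_))
    intro o ho
    rw [Set.mem_ofPred_eq] at ho ⊢
    rwa [inv_mul_eq_div, one_lt_div hs] at ho
  · refine (min_le_right _ _).trans (a2.trans (measureReal_mono ?_))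
    intro o ho
    rw [Set.mem_ofPred_eq] at ho ⊢
    rw [inv_mul_eq_div, div_lt_iff₀ hs] at ho
    linarith

end

end Pool.Agent.R783.Walk
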