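import Pool.Agent.R783.WalkB

/-!
# Centred counting walk: Ottaviani inequality, up and down blocks
-/

set_option autoImplicit false
set_option linter.unusedSectionVars false

namespace Pool.Agent.R783.Walk

open MeasureTheory ProbabilityTheory Filter Topology

/-- up block -/
def Up (p C : ℝ) (L : ℕ) (w : ℕ → ℕ) : Prop :=
  √L ≤ Y p w L ∧ ∀ n ≤ L, |Y p w n| ≤ C * √L

/-- down block -/
def Dn (p C : ℝ) (L : ℕ) (w : ℕ → ℕ) : Prop :=
  Y p w L ≤ -√L ∧ ∀ n ≤ L, |Y p w n| ≤ C * √L

lemma dep_Y (p : ℝ) (n : ℕ) (S : Set ℝ) : Dep (fun w => Y p w n ∈ S) 0 n := by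
  intro w w' h hw
  show Y p w' n ∈ S
  rw [← Y_congr p w w' n (fun k hk => h k (Nat.zero_le _) hk)]
  exact hw

lemma dep_Up (p C : ℝ) (L : ℕ) : Dep (Up p C L) 0 L := by
  intro w w' h hw
  constructor
  · rw [← Y_congr p w w' L (fun k hk => h k (Nat.zero_le _) hk)]; exact hw.1
  · intro n hn
    rw [← Y_congr p w w' n (fun k hk => h k (Nat.zero_le _) (hk.trans_le hn))]; exact hw.2 n hn

lemma dep_Dn (p C : ℝ) (L : ℕ) : Dep (Dn p C L) 0 L := by
  intro w w' h hw
  constructor
  · rw [← Y_congr p w w' L (fun k hk => h k (Nat.zero_le _) hk)]; exact hw.1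
  · intro n hn
    rw [← Y_congr p w w' n (fun k hk => h k (Nat.zero_le _) (hk.trans_le hn))]; exact hw.2 n hn

section

variable {Ω : Type*} [MeasurableSpace Ω] {P : Measure Ω} [IsProbabilityMeasure P]
  {ω : ℕ → Ω → ℕ} {p : ℝ}

lemma otta (hmeas : ∀ n, Measurable (ω n)) (hind : iIndepFun ω P) (hp0 : 0 < p) (hp1 : p < 1)
    (hlaw : ∀ n, P.map (ω n) = P.map (ω 0))
    (h2 : ∀ n, P {o | ω n o = 2} = ENNReal.ofReal p) (L : ℕ) (lam : ℝ) (hlam : 0 < lam)
    (hL : 2 * L ≤ lam ^ 2) :
    P.real {o | ∃ n ≤ L, 2 * lam ≤ |Y p (fun k => ω k o) n|} ≤ 2 * L / lam ^ 2 := by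
  set F : ℕ → (ℕ → ℕ) → Prop := fun k w => (∀ j < k, |Y p w j| < 2 * lam) ∧ 2 * lam ≤ |Y p w k|
    with hF
  set R : ℕ → (ℕ → ℕ) → Prop := fun k w => |Y p w L - Y p w k| < lam with hR
  have hFd : ∀ k, Dep (F k) 0 k := by
    intro k w w' h hw
    constructor
    · intro j hj
      rw [← Y_congr p w w' j (fun i hi => h i (Nat.zero_le _) (hi.trans hj))]; exact hw.1 j hj
    · rw [← Y_congr p w w' k (fun i hi => h i (Nat.zero_le _) hi)]; exact hw.2
  have hRe : ∀ k ≤ L, ∀ w, R k w ↔ |Y p (fun i => w (k + i)) (L - k)| < lam := by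
    intro k hk w
    have := Y_add p w k (L - k)
    rw [Nat.add_sub_cancel' hk] at this
    rw [hR]
    simp only
    rw [this]
  have hRd : ∀ k ≤ L, Dep (R k) k L := by
    intro k hk w w' h hw
    rw [hRe k hk] at hw ⊢
    rwa [← Y_congr p (fun i => w (k + i)) (fun i => w' (k + i)) (L - k)
      (fun i hi => h (k + i) (by omega) (by omega))]
  have hlam2 : 0 < lam ^ 2 := by positivity
  have hPR : ∀ k ≤ L, 1 / 2 ≤ P.real {o | R k (fun i => ω i o)} := by
    intro k hk
    have h1 : P.real {o | ¬ R k (fun i => ω i o)} ≤ 1 / 2 := by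
      have e : {o | ¬ R k (fun i => ω i o)} =
          {o | (fun w : ℕ → ℕ => Y p w (L - k) ∈ {x : ℝ | lam ≤ |x|}) (fun i => ω (k + i) o)} := by
        ext o
        simp only [Set.mem_ofPred_eq]
        rw [hRe k hk, not_lt]
      rw [e, Dep.stat hmeas hind hlaw (dep_Y p (L - k) _) k]
      refine (cheb hmeas hind hp0 hp1 h2 (L - k) lam hlam).trans ?_
      rw [div_le_iff₀ hlam2]
      have : ((L - k : ℕ) : ℝ) ≤ L := by exact_mod_cast Nat.sub_le L k
      linarith
    have h3 : P.real {o | R k (fun i => ω i o)} + P.real {o | R k (fun i => ω i o)}ᶜ = 1 :=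
      probReal_add_probReal_compl ((hRd k hk).meas hmeas)
    have h4 : {o | R k (fun i => ω i o)}ᶜ = {o | ¬ R k (fun i => ω i o)} := rfl
    rw [h4] at h3
    linarith
  have hsum : ∑ k ∈ Finset.range (L + 1), P.real {o | F k (fun i => ω i o)} * (1 / 2) ≤
      L / lam ^ 2 := by
    calc ∑ k ∈ Finset.range (L + 1), P.real {o | F k (fun i => ω i o)} * (1 / 2)
        ≤ ∑ k ∈ Finset.range (L + 1),
          P.real {o | F k (fun i => ω i o) ∧ R k (fun i => ω i o)} := by
          refine Finset.sum_le_sum fun k hk => ?_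
          have hk' : k ≤ L := by rw [Finset.mem_range] at hk; omega
          rw [Dep.indep hmeas hind (hFd k) (hRd k hk')]
          exact mul_le_mul_of_nonneg_left (hPR k hk') measureReal_nonneg
      _ = P.real (⋃ k ∈ Finset.range (L + 1), {o | F k (fun i => ω i o) ∧ R k (fun i => ω i o)}) := by
          rw [measureReal_biUnion_finset]
          · intro i _ j _ hij
            rw [Function.onFun, Set.disjoint_left]
            intro o ho ho'
            rw [Set.mem_ofPred_eq] at ho ho'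
            rcases lt_or_gt_of_ne hij with h | h
            · exact absurd ho.1.2 (not_le.2 (ho'.1.1 i h))
            · exact absurd ho'.1.2 (not_le.2 (ho.1.1 j h))
          · intro k hk
            have hk' : k ≤ L := by rw [Finset.mem_range] at hk; omega
            exact (((hFd k).mono le_rfl hk').and ((hRd k hk').mono (Nat.zero_le _) le_rfl)).meas hmeas
      _ ≤ P.real {o | lam ≤ |Y p (fun k => ω k o) L|} := by
          refine measureReal_mono ?_
          intro o ho
          simp only [Set.mem_iUnion, Set.mem_ofPred_eq] at ho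
          obtain ⟨k, hk, ho1, ho2⟩ := ho
          rw [Set.mem_ofPred_eq]
          have h5 := ho1.2
          have ho3 : |Y p (fun i => ω i o) L - Y p (fun i => ω i o) k| < lam := ho2
          have h6 : |Y p (fun i => ω i o) k| ≤ |Y p (fun i => ω i o) L| +
              |Y p (fun i => ω i o) L - Y p (fun i => ω i o) k| := by
            have := abs_sub_abs_le_abs_sub (Y p (fun i => ω i o) k) (Y p (fun i => ω i o) L)
            rw [abs_sub_comm] at this
            linarith
          linarith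
      _ ≤ L / lam ^ 2 := cheb hmeas hind hp0 hp1 h2 L lam hlam
  have hcov : {o | ∃ n ≤ L, 2 * lam ≤ |Y p (fun k => ω k o) n|} ⊆
      ⋃ k ∈ Finset.range (L + 1), {o | F k (fun i => ω i o)} := by
    intro o ho
    rw [Set.mem_ofPred_eq] at ho
    classical
    have hex : ∃ n, 2 * lam ≤ |Y p (fun k => ω k o) n| := by
      obtain ⟨n, -, hn⟩ := ho; exact ⟨n, hn⟩
    simp only [Set.mem_iUnion]
    refine ⟨Nat.find hex, ?_, ?_⟩
    · obtain ⟨n, hn, hn'⟩ := ho
      rw [Finset.mem_range]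
      have := Nat.find_min' hex hn'
      omega
    · refine ⟨fun j hj => not_le.1 (Nat.find_min hex hj), Nat.find_spec hex⟩
  have h7 : P.real {o | ∃ n ≤ L, 2 * lam ≤ |Y p (fun k => ω k o) n|} ≤
      ∑ k ∈ Finset.range (L + 1), P.real {o | F k (fun i => ω i o)} :=
    (measureReal_mono hcov (measure_ne_top _ _)).trans (measureReal_biUnion_finset_le _ _)
  rw [← Finset.sum_mul] at hsum
  have : 2 * (L : ℝ) / lam ^ 2 = 2 * (L / lam ^ 2) := by ring
  rw [this]
  linarith

/-- up and down blocks have probability bounded below -/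
lemma updn (hmeas : ∀ n, Measurable (ω n)) (hind : iIndepFun ω P) (hp0 : 0 < p) (hp1 : p < 1)
    (hlaw : ∀ n, P.map (ω n) = P.map (ω 0))
    (h2 : ∀ n, P {o | ω n o = 2} = ENNReal.ofReal p) :
    ∃ ρ > 0, ∃ C ≥ (1 : ℝ), ∃ L0 : ℕ, ∀ L ≥ L0, ∀ m : ℕ,
      ρ ≤ P.real {o | Up p C L (fun k => ω (m + k) o)} ∧
      ρ ≤ P.real {o | Dn p C L (fun k => ω (m + k) o)} := by
  obtain ⟨ρ, hρ, L0, hL0⟩ := clt hmeas hind hp0 hp1 hlaw h2
  -- choose C with 8 / C^2 ≤ ρ / 2 and C ≥ 4
  set C : ℝ := 4 + 4 / √ρ with hC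
  have hsρ : 0 < √ρ := Real.sqrt_pos.2 hρ
  have hC4 : 4 ≤ C := by rw [hC]; have : 0 < 4 / √ρ := by positivity
                         linarith
  have hCρ : 16 ≤ C ^ 2 * ρ := by
    have h1 : 4 / √ρ ≤ C := by rw [hC]; linarith
    have h3 : 4 ≤ C * √ρ := by rwa [div_le_iff₀ hsρ] at h1
    have h4 : C ^ 2 * ρ = (C * √ρ) ^ 2 := by rw [mul_pow, Real.sq_sqrt hρ.le]
    rw [h4]; nlinarith
  refine ⟨ρ / 2, by positivity, C, by linarith, max L0 1, fun L hL m => ?_⟩
  have hL0' : L0 ≤ L := (le_max_left _ _).trans hL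
  have hL1 : 1 ≤ L := (le_max_right _ _).trans hL
  have hLpos : (0 : ℝ) < L := by exact_mod_cast hL1
  have hs : 0 < √(L : ℝ) := Real.sqrt_pos.2 hLpos
  obtain ⟨c1, c2⟩ := hL0 L hL0'
  set lam : ℝ := C / 2 * √L with hlamd
  have hlam : 0 < lam := by positivity
  have hlam2 : lam ^ 2 = C ^ 2 / 4 * L := by
    rw [hlamd, mul_pow, Real.sq_sqrt hLpos.le]; ring
  have hot := otta hmeas hind hp0 hp1 hlaw h2 L lam hlam (by
    rw [hlam2]
    have : 16 ≤ C ^ 2 := by nlinarith
    nlinarith)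
  have hot2 : P.real {o | ∃ n ≤ L, 2 * lam ≤ |Y p (fun k => ω k o) n|} ≤ ρ / 2 := by
    refine hot.trans ?_
    rw [hlam2, div_le_iff₀ (by positivity)]
    nlinarith
  have e2 : 2 * lam = C * √L := by rw [hlamd]; ring
  constructor
  · rw [Dep.stat hmeas hind hlaw (dep_Up p C L) m]
    have hsub : {o | √L < Y p (fun k => ω k o) L} ⊆
        {o | Up p C L (fun k => ω k o)} ∪ {o | ∃ n ≤ L, 2 * lam ≤ |Y p (fun k => ω k o) n|} := by
      intro o ho
      rw [Set.mem_ofPred_eq] at ho
      by_cases h : ∃ n ≤ L, 2 * lam ≤ |Y p (fun k => ω k o) n|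
      · exact Or.inr h
      · left
        push Not at h
        refine ⟨ho.le, fun n hn => ?_⟩
        rw [← e2]; exact (h n hn).le
    have := (measureReal_mono (μ := P) hsub).trans (measureReal_union_le _ _)
    linarith
  · rw [Dep.stat hmeas hind hlaw (dep_Dn p C L) m]
    have hsub : {o | Y p (fun k => ω k o) L < -√L} ⊆
        {o | Dn p C L (fun k => ω k o)} ∪ {o | ∃ n ≤ L, 2 * lam ≤ |Y p (fun k => ω k o) n|} := by
      intro o ho
      rw [Set.mem_ofPred_eq] at ho
      by_cases h : ∃ n ≤ L, 2 * lam ≤ |Y p (fun k => ω k o) n|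
      · exact Or.inr h
      · left
        push Not at h
        refine ⟨ho.le, fun n hn => ?_⟩
        rw [← e2]; exact (h n hn).le
    have := (measureReal_mono (μ := P) hsub).trans (measureReal_union_le _ _)
    linarith

end

end Pool.Agent.R783.Walk
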